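import Pool.Agent.MVO.StmtsD

/-!
# Squad MVO, row ND3
-/

set_option autoImplicit false

namespace Pool.Agent.MVO.H69

open Pool.Agent.Helper14_MV Pool.Agent.Helper2_MV Pool.Agent.MVO

theorem bt_ext {β : FIC} {k : ℕ} {a a' b b' : ℕ → ℕ} {i : ℕ} (ha : ∀ j ≤ k, a j = a' j)
    (hb : ∀ j ≤ k, b j = b' j) (h : Bt β k a b i) : Bt β k a' b' i := by
  intro e
  have h1 := h e
  unfold Ex at h1 ⊢
  have e1 : ∀ e : ℕ → Bool, w2 k a' b' e = w2 k a b e := by
    intro e
    unfold w2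
    exact asm_congr (fun j hj => by rw [ha j hj, hb j hj])
  rw [e1, e1]
  exact h1

/-- **ND3** -/
theorem nd3 (hND2 : Nd2Stmt) (hHOP : HopStmt) (hRVO : RvoStmt) (hRVB : RvbStmt) : Nd3Stmt := by
  intro β hβ hO3
  have hop := hHOP β hβ
  have hO2 : O2 (FC.ofFIC (FIC.op β)) := by
    have h1 : L1 (FIC.op β) 1 (v2 1 2) (v2 0 3) := by
      rw [hRVO]
      have h2 : L1 β 1 (v2 2 1) (v2 3 0) := (FC.ofFIC β).symm hO3
      refine (FC.ofFIC β).ext ?_ ?_ h2
      · intro j hj
        interval_cases j <;> rfl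
      · intro j hj
        interval_cases j <;> rfl
    exact h1
  rcases hND2 (FIC.op β) hop hO2 with h | h
  · left
    have h1 : L1 (FIC.op β) 2 (v3 1 1 1) (v3 0 2 1) := h
    rw [hRVO] at h1
    refine (FC.ofFIC β).ext ?_ ?_ h1
    · intro j hj
      interval_cases j <;> rfl
    · intro j hj
      interval_cases j <;> rfl
  · right
    rw [hRVB β 2 (v3 2 0 1) (v3 0 1 1) 2 le_rfl] at h
    refine bt_ext ?_ ?_ h
    · intro j hj
      interval_cases j <;> rfl
    · intro j hj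
      interval_cases j <;> rfl

end Pool.Agent.MVO.H69
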